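import Mathlib

/-!
# PROJECT S0, part (a): the cube

A function on the vertices of a cube, with values in a commutative group, such that the product of
the values on two opposite vertices of a face is the product for the two other vertices, is affine;
hence it satisfies all relations which are satisfied by the coordinates of the vertices.
-/

set_option autoImplicit false

namespace Pool.Agent.Lib.MPf11a48.SH.A

variable {α V : Type} [DecidableEq α] [CommGroup V]

theorem zpow_sum {V : Type} [CommGroup V] {I : Type} (s : Finset I) (a : V) (f : I → ℤ) :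
    ∏ i ∈ s, a ^ f i = a ^ (∑ i ∈ s, f i) := by
  classical
  induction s using Finset.induction_on with
  | empty => simp
  | insert i s hi ih => rw [Finset.prod_insert hi, Finset.sum_insert hi, ih, zpow_add]

/-- The value on `A ∪ {a}`. -/
theorem cube_insert (G : Finset α → V)
    (h : ∀ (A : Finset α) (a b : α), a ∉ A → b ∉ A → a ≠ b →
      G (insert a (insert b A)) * G A = G (insert a A) * G (insert b A))
    (a : α) (A : Finset α) : a ∉ A → G (insert a A) * G ∅ = G A * G {a} := by
  induction A using Finset.induction_on with
  | empty => intro _; rw [insert_empty_eq, mul_comm]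
  | insert b B hb ih =>
    intro ha
    have hab : a ≠ b := fun e => ha (e ▸ Finset.mem_insert_self _ _)
    have haB : a ∉ B := fun e => ha (Finset.mem_insert_of_mem e)
    have h1 := h B a b haB hb hab
    have h2 := ih haB
    have h3 : G B * (G (insert a (insert b B)) * G ∅) = G B * (G (insert b B) * G {a}) := by
      calc G B * (G (insert a (insert b B)) * G ∅)
          = (G (insert a (insert b B)) * G B) * G ∅ := by
            rw [mul_comm (G (insert a (insert b B))) (G B), mul_assoc]
        _ = (G (insert a B) * G ∅) * G (insert b B) := by
            rw [h1, mul_right_comm]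
        _ = G B * (G (insert b B) * G {a}) := by
            rw [h2, mul_right_comm, mul_assoc]
    exact mul_left_cancel h3

/-- The function is affine. -/
theorem cube_eq (G : Finset α → V)
    (h : ∀ (A : Finset α) (a b : α), a ∉ A → b ∉ A → a ≠ b →
      G (insert a (insert b A)) * G A = G (insert a A) * G (insert b A))
    (A : Finset α) : G A = G ∅ * ∏ x ∈ A, G {x} / G ∅ := by
  induction A using Finset.induction_on with
  | empty => simp
  | insert a A ha ih =>
    have h1 := cube_insert G h a A ha
    rw [Finset.prod_insert ha]
    have h2 : G (insert a A) = G A * (G {a} / G ∅) := by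
      rw [← mul_div_assoc, eq_div_iff_mul_eq', h1]
    rw [h2, ih, mul_assoc, mul_comm (∏ x ∈ A, G {x} / G ∅)]

/-- **The face relations span all relations.** -/
theorem cube_rel {I : Type} [Fintype I] (G : Finset α → V)
    (h : ∀ (A : Finset α) (a b : α), a ∉ A → b ∉ A → a ≠ b →
      G (insert a (insert b A)) * G A = G (insert a A) * G (insert b A))
    (A : I → Finset α) (n : I → ℤ) (hn : ∑ i, n i = 0)
    (hx : ∀ x, (∑ i, if x ∈ A i then n i else 0) = 0) : ∏ i, G (A i) ^ n i = 1 := by
  classical
  set U : Finset α := Finset.univ.biUnion A with hU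
  have hsub : ∀ i, A i ⊆ U := fun i => Finset.subset_biUnion_of_mem A (Finset.mem_univ i)
  have h1 : ∀ i, G (A i) ^ n i = G ∅ ^ n i *
      ∏ x ∈ U, (G {x} / G ∅) ^ (if x ∈ A i then n i else 0) := by
    intro i
    rw [cube_eq G h (A i), mul_zpow]
    congr 1
    rw [← Finset.prod_zpow]
    rw [← Finset.prod_subset (hsub i)]
    · exact Finset.prod_congr rfl fun x hx => by rw [if_pos hx]
    · intro x _ hx
      rw [if_neg hx, zpow_zero]
  rw [Finset.prod_congr rfl fun i _ => h1 i, Finset.prod_mul_distrib, Finset.prod_comm,
    zpow_sum, hn, zpow_zero, one_mul]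
  refine Finset.prod_eq_one fun x _ => ?_
  rw [zpow_sum, hx x, zpow_zero]

end Pool.Agent.Lib.MPf11a48.SH.A
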