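import Pool.Agent.Lib.MP_f11a48_ag.CMM.Spec
import Pool.Agent.Lib.MP_f11a48_ag.CMM.DefsS
import Pool.Agent.Lib.MP_f11a48_ag.SH.A.Cube

/-!
# PROJECT S0, part (a): all Hodge relations from relations between four embeddings

`T` is the set of the embeddings of the centre which occur in the tangent space. Let `P` be a
function on the embeddings with values in a commutative group (later: the period of an eigenvector,
modulo algebraic numbers) such that `P s * P s̄` is the same for all `s` which are not real (Legendre)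
and `P s₁ * P s₂ = P s₃ * P s₄` for all `s₁, …, s₄ ∈ T` with
`[γ s₁ ∈ T] + [γ s₂ ∈ T] = [γ s₃ ∈ T] + [γ s₄ ∈ T]` for all `γ`. If the reflex fields are in `E` and all
CM types of `E` occur then `P` satisfies all Hodge relations.

Proof. The types of `E` which contain the identity are the vertices of a cube, the coordinates are
the embeddings of `E` different from the identity in a fixed type. By the relations for four
embeddings `P` is affine on the cube; for `s ∉ T` use `P s = L / P s̄`.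
-/

set_option autoImplicit false

namespace Pool.Agent.Lib.MPf11a48.SH.A

open Pool.Agent.Lib.MPf11a48.CM (Qbar)
open Pool.Agent.Lib.MPf11a48.GL2T
open Pool.Agent.Lib.MPf11a48.U
open Pool.Agent.Lib.MPf11a48.CMS
open Pool.Agent.Lib.MPf11a48.CMM (HalfSet)

open scoped Classical in
/-- `1` if `γ s ∈ T` and `0` otherwise. -/
noncomputable def ind {ι : Type} [Fintype ι] [DecidableEq ι] {c : Matrix ι ι ℂ}
    (T : Set (EmbC c)) (γ : GalQ) (s : EmbC c) : ℤ := if act γ s ∈ T then 1 else 0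

/-- The relations between four embeddings which occur in the tangent space. -/
def Rel4 {ι : Type} [Fintype ι] [DecidableEq ι] {c : Matrix ι ι ℂ} (ψ : Matrix ι ι ℚ)
    (T : Set (EmbC c)) {V : Type} [CommGroup V] (P : EmbC c → V) : Prop :=
  ∀ s₁ s₂ s₃ s₄ : EmbC c, ¬ IsBar ψ s₁ s₁ → ¬ IsBar ψ s₂ s₂ → ¬ IsBar ψ s₃ s₃ → ¬ IsBar ψ s₄ s₄ →
    s₁ ∈ T → s₂ ∈ T → s₃ ∈ T → s₄ ∈ T →
    (∀ γ : GalQ, ind T γ s₁ + ind T γ s₂ = ind T γ s₃ + ind T γ s₄) → P s₁ * P s₂ = P s₃ * P s₄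

/-- **Part (a).** -/
def SpecA : Prop :=
  ∀ (ι : Type) [Fintype ι] [DecidableEq ι] (c : Matrix ι ι ℂ) (ψ : Matrix ι ι ℚ)
    (T : Set (EmbC c)) (E : Sub), FiniteDimensional ℚ E → HalfSet ψ T →
    (∀ s : EmbC c, ¬ IsBar ψ s s → ∀ γ, Fix E γ → (act γ s ∈ T ↔ s ∈ T)) →
    (∀ ξ, IsType E ξ → ∃ s : EmbC c, ¬ IsBar ψ s s ∧ ∀ γ, act γ s ∈ T ↔ γ⁻¹ ∈ ξ) →
    ∀ (V : Type) [CommGroup V] (P : EmbC c → V) (L : V),
    (∀ s s', IsBar ψ s s' → ¬ IsBar ψ s s → P s * P s' = L) → Rel4 ψ T P →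
    ∀ χ : EmbC c → ℤ, HodgeRel ψ T χ → ∏ s : EmbC c, P s ^ χ s = 1

namespace RelM

variable {ι : Type} [Fintype ι] [DecidableEq ι] {c : Matrix ι ι ℂ} {ψ : Matrix ι ι ℚ}
  {T : Set (EmbC c)} {E : Sub}

theorem act_one (s : EmbC c) : act 1 s = s := AlgHom.ext fun _ => rfl

theorem act_mul (γ δ : GalQ) (s : EmbC c) : act (γ * δ) s = act γ (act δ s) :=
  AlgHom.ext fun _ => rfl

theorem act_inv_act (γ : GalQ) (s : EmbC c) : act γ⁻¹ (act γ s) = s := by
  rw [← act_mul, inv_mul_cancel, act_one]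

theorem act_inj (γ : GalQ) {s s' : EmbC c} (h : act γ s = act γ s') : s = s' := by
  rw [← act_inv_act γ s, h, act_inv_act]

/-- the complex conjugation -/
noncomputable def rho : GalQ :=
  ((Complex.conjAe.restrictScalars ℚ : ℂ ≃ₐ[ℚ] ℂ).restrictNormal Qbar :)

theorem isConj_rho : IsConj rho := fun x =>
  AlgEquiv.restrictNormal_commutes (Complex.conjAe.restrictScalars ℚ : ℂ ≃ₐ[ℚ] ℂ) Qbar x

theorem ap_mul (γ δ : GalQ) (x : Qbar) : ap (γ * δ) x = ap γ (ap δ x) := rfl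

theorem ext_ap {γ δ : GalQ} (h : ∀ x, ap γ x = ap δ x) : γ = δ :=
  AlgEquiv.ext (A₁ := Qbar) (A₂ := Qbar) h

theorem isConj_unique {ρ ρ' : GalQ} (h : IsConj ρ) (h' : IsConj ρ') : ρ = ρ' :=
  ext_ap fun x => Subtype.ext ((h x).trans (h' x).symm)

theorem isConj_mul_self {ρ : GalQ} (h : IsConj ρ) : ρ * ρ = 1 := by
  refine ext_ap fun x => Subtype.ext ?_
  rw [ap_mul, h, h, Complex.conj_conj]
  rfl

theorem isConj_inv {ρ : GalQ} (h : IsConj ρ) : ρ⁻¹ = ρ :=
  inv_eq_of_mul_eq_one_left (isConj_mul_self h)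

/-- the restriction to `E` -/
noncomputable def res (E : Sub) (γ : GalQ) : E →ₐ[ℚ] Qbar := (AlgEquiv.toAlgHom γ).comp E.val

theorem res_eq_iff (γ δ : GalQ) : res E γ = res E δ ↔ Fix E (γ⁻¹ * δ) := by
  constructor
  · intro h x hx
    have h1 : ap γ x = ap δ x := DFunLike.congr_fun h (⟨x, hx⟩ : E)
    rw [ap_mul, ← h1, ← ap_mul, inv_mul_cancel]
    rfl
  · intro h
    refine AlgHom.ext fun x => ?_
    have h1 := h x.1 x.2
    have h2 : ap γ (ap (γ⁻¹ * δ) x.1) = ap δ x.1 := by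
      rw [← ap_mul, mul_inv_cancel_left]
    rw [h1] at h2
    exact h2

theorem res_mul_fix (γ σ : GalQ) (h : Fix E σ) : res E (γ * σ) = res E γ := by
  refine ((res_eq_iff _ _).2 ?_).symm
  rwa [inv_mul_cancel_left]

/-- The action of an automorphism on the embeddings. -/
noncomputable def eqv (γ : GalQ) : EmbC c ≃ EmbC c where
  toFun s := act γ s
  invFun s := act γ⁻¹ s
  left_inv s := act_inv_act γ s
  right_inv s := by
    have := act_inv_act γ⁻¹ s
    rwa [inv_inv] at this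

theorem bar_eq (hHS : HalfSet ψ T) {s s' : EmbC c} (h : IsBar ψ s s') {ρ : GalQ}
    (hρ : IsConj ρ) : act ρ s = s' := by
  refine AlgHom.ext fun z => Subtype.ext ?_
  rw [← hHS.2.2.2.1 s s' z h]
  exact hρ (s z)

theorem isBar_act (hHS : HalfSet ψ T) {ρ : GalQ} (hρ : IsConj ρ) (s : EmbC c) :
    IsBar ψ s (act ρ s) := by
  obtain ⟨s', hs'⟩ := hHS.1 s
  rwa [bar_eq hHS hs' hρ]

theorem nr_act (hHS : HalfSet ψ T) (γ : GalQ) {s : EmbC c} (hs : ¬ IsBar ψ s s) :
    ¬ IsBar ψ (act γ s) (act γ s) := by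
  intro h
  apply hs
  have h1 := hHS.2.2.2.2.1 γ⁻¹ _ _ h
  have h2 : (AlgEquiv.toAlgHom γ⁻¹).comp (act γ s) = s := act_inv_act γ s
  rwa [h2] at h1

theorem mem_mul_rho (hHS : HalfSet ψ T) {ρ : GalQ} (hρ : IsConj ρ) (γ : GalQ) {s : EmbC c}
    (hs : ¬ IsBar ψ s s) : act (γ * ρ) s ∈ T ↔ act γ s ∉ T := by
  rw [act_mul]
  have h1 := hHS.2.2.2.2.1 γ _ _ (isBar_act hHS hρ s)
  refine hHS.2.2.2.2.2 _ _ h1 fun h2 => ?_
  have h3 : s = act ρ s := act_inj γ h2
  have h4 := isBar_act hHS hρ s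
  rw [← h3] at h4
  exact hs h4

theorem mem_rho (hHS : HalfSet ψ T) {ρ : GalQ} (hρ : IsConj ρ) {s : EmbC c}
    (hs : ¬ IsBar ψ s s) : act ρ s ∈ T ↔ s ∉ T := by
  have := mem_mul_rho hHS hρ 1 hs
  rwa [one_mul, act_one] at this

theorem fix_inv {σ : GalQ} (h : Fix E σ) : Fix E σ⁻¹ := by
  intro x hx
  have h1 : ap σ⁻¹ (ap σ x) = x := by
    rw [← ap_mul, inv_mul_cancel]
    rfl
  rwa [h x hx] at h1

theorem wd (hHS : HalfSet ψ T)
    (hrefl : ∀ s : EmbC c, ¬ IsBar ψ s s → ∀ γ, Fix E γ → (act γ s ∈ T ↔ s ∈ T))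
    {s : EmbC c} (hs : ¬ IsBar ψ s s) {γ δ : GalQ} (h : res E γ = res E δ) :
    act γ⁻¹ s ∈ T ↔ act δ⁻¹ s ∈ T := by
  have h1 := (res_eq_iff γ δ).1 h
  have h2 := hrefl (act γ⁻¹ s) (nr_act hHS _ hs) _ (fix_inv h1)
  rw [← act_mul, mul_inv_rev, inv_inv, mul_assoc, mul_inv_cancel, mul_one] at h2
  exact h2.symm

end RelM

open RelM in
theorem specA : SpecA := by
  classical
  intro ι _ _ c ψ T E hE hHS hrefl hall V _ P L hL h4 χ hχ
  obtain ⟨hχ0, hχs⟩ := hχ
  by_cases hex : ∃ s₀ : EmbC c, ¬ IsBar ψ s₀ s₀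
  swap
  · push Not at hex
    refine Finset.prod_eq_one fun s _ => ?_
    rw [hχ0 s (hex s), zpow_zero]
  set ρ : GalQ := rho with hρdef
  have hρ : IsConj ρ := isConj_rho
  have hρi : ρ⁻¹ = ρ := isConj_inv hρ
  obtain ⟨t, ht, htT⟩ : ∃ t : EmbC c, ¬ IsBar ψ t t ∧ t ∈ T := by
    obtain ⟨s₀, hs₀⟩ := hex
    by_cases h : s₀ ∈ T
    · exact ⟨s₀, hs₀, h⟩
    · exact ⟨act ρ s₀, nr_act hHS ρ hs₀, (mem_rho hHS hρ hs₀).2 h⟩
  -- the base type
  set ξ₀ : Set GalQ := {γ | act γ⁻¹ t ∈ T} with hξ₀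
  have hξ1 : (1 : GalQ) ∈ ξ₀ := by
    change act 1⁻¹ t ∈ T
    rw [inv_one, act_one]
    exact htT
  have hξc : ∀ γ, (ρ * γ ∈ ξ₀ ↔ γ ∉ ξ₀) := by
    intro γ
    change act (ρ * γ)⁻¹ t ∈ T ↔ ¬ act γ⁻¹ t ∈ T
    rw [mul_inv_rev, hρi]
    exact mem_mul_rho hHS hρ _ ht
  have hξr : ∀ γ σ, Fix E σ → (γ * σ ∈ ξ₀ ↔ γ ∈ ξ₀) := by
    intro γ σ hσ
    exact wd hHS hrefl ht (res_mul_fix γ σ hσ)
  -- the types of the cube
  set X : Finset (E →ₐ[ℚ] Qbar) → Set GalQ := fun A =>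
    {γ | (γ ∈ ξ₀ ∧ res E γ ∉ A) ∨ (γ ∉ ξ₀ ∧ res E (ρ * γ) ∈ A)} with hX
  have hXm : ∀ A γ, γ ∈ X A ↔ (γ ∈ ξ₀ ∧ res E γ ∉ A) ∨ (γ ∉ ξ₀ ∧ res E (ρ * γ) ∈ A) :=
    fun A γ => Iff.rfl
  have hXt : ∀ A, IsType E (X A) := by
    intro A
    constructor
    · intro γ σ hσ
      rw [hXm, hXm, hξr γ σ hσ, res_mul_fix γ σ hσ, ← mul_assoc, res_mul_fix (ρ * γ) σ hσ]
    · intro ρ' hρ' γ
      have e : ρ' = ρ := isConj_unique hρ' hρ
      subst e
      rw [hXm, hXm, hξc γ, ← mul_assoc, isConj_mul_self hρ, one_mul]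
      tauto
  choose S hS1 hS2 using fun A => hall (X A) (hXt A)
  set x₁ : E →ₐ[ℚ] Qbar := res E 1 with hx₁
  set G : Finset (E →ₐ[ℚ] Qbar) → V := fun A => P (S (A.erase x₁)) with hG
  have hST : ∀ A, x₁ ∉ A → S A ∈ T := by
    intro A hA
    have h1 := (hS2 A 1).2 (by
      rw [inv_one, hXm]
      exact Or.inl ⟨hξ1, hA⟩)
    rwa [act_one] at h1
  have hind : ∀ A γ, ind T γ (S A) = if γ⁻¹ ∈ ξ₀ then (if res E γ⁻¹ ∈ A then 0 else 1) else
      (if res E (ρ * γ⁻¹) ∈ A then 1 else 0) := by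
    intro A γ
    unfold ind
    rw [if_congr ((hS2 A γ).trans (hXm A γ⁻¹)) rfl rfl]
    by_cases h1 : γ⁻¹ ∈ ξ₀ <;> by_cases h2 : res E γ⁻¹ ∈ A <;> by_cases h3 : res E (ρ * γ⁻¹) ∈ A <;>
      simp [h1, h2, h3]
  have hcube : ∀ (A : Finset (E →ₐ[ℚ] Qbar)) (a b : E →ₐ[ℚ] Qbar), a ∉ A → b ∉ A → a ≠ b →
      G (insert a (insert b A)) * G A = G (insert a A) * G (insert b A) := by
    intro A a b ha hb hab
    by_cases h1 : a = x₁
    · subst h1
      change P (S ((insert x₁ (insert b A)).erase x₁)) * P (S (A.erase x₁)) =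
        P (S ((insert x₁ A).erase x₁)) * P (S ((insert b A).erase x₁))
      rw [Finset.erase_insert_eq_erase, Finset.erase_insert_eq_erase, mul_comm]
    by_cases h2 : b = x₁
    · subst h2
      change P (S ((insert a (insert x₁ A)).erase x₁)) * P (S (A.erase x₁)) =
        P (S ((insert a A).erase x₁)) * P (S ((insert x₁ A).erase x₁))
      rw [Finset.insert_comm, Finset.erase_insert_eq_erase, Finset.erase_insert_eq_erase]
    change P (S ((insert a (insert b A)).erase x₁)) * P (S (A.erase x₁)) =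
      P (S ((insert a A).erase x₁)) * P (S ((insert b A).erase x₁))
    have e1 : (insert a (insert b A)).erase x₁ = insert a (insert b (A.erase x₁)) := by
      rw [Finset.erase_insert_of_ne h1, Finset.erase_insert_of_ne h2]
    have e2 : (insert a A).erase x₁ = insert a (A.erase x₁) := Finset.erase_insert_of_ne h1
    have e3 : (insert b A).erase x₁ = insert b (A.erase x₁) := Finset.erase_insert_of_ne h2
    rw [e1, e2, e3]
    have hx : x₁ ∉ A.erase x₁ := Finset.notMem_erase _ _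
    have ha' : a ∉ A.erase x₁ := fun h => ha (Finset.mem_of_mem_erase h)
    have hb' : b ∉ A.erase x₁ := fun h => hb (Finset.mem_of_mem_erase h)
    generalize A.erase x₁ = B at hx ha' hb' ⊢
    have hxa : x₁ ∉ insert a B := by
      rw [Finset.mem_insert, not_or]
      exact ⟨fun h => h1 h.symm, hx⟩
    have hxb : x₁ ∉ insert b B := by
      rw [Finset.mem_insert, not_or]
      exact ⟨fun h => h2 h.symm, hx⟩
    have hxab : x₁ ∉ insert a (insert b B) := by
      rw [Finset.mem_insert, not_or]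
      exact ⟨fun h => h1 h.symm, hxb⟩
    refine h4 _ _ _ _ (hS1 _) (hS1 _) (hS1 _) (hS1 _) (hST _ hxab) (hST _ hx) (hST _ hxa)
      (hST _ hxb) fun γ => ?_
    rw [hind, hind, hind, hind]
    have key : ∀ y : E →ₐ[ℚ] Qbar, ((if y ∈ insert a (insert b B) then (1 : ℤ) else 0) +
        (if y ∈ B then 1 else 0)) = (if y ∈ insert a B then 1 else 0) +
          (if y ∈ insert b B then 1 else 0) := by
      intro y
      simp only [Finset.mem_insert]
      by_cases k1 : y = a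
      · subst k1
        simp [ha', hab]
      · by_cases k2 : y = b
        · subst k2
          simp [hb', k1]
        · simp [k1, k2]
    have key' : ∀ y : E →ₐ[ℚ] Qbar, ((if y ∈ insert a (insert b B) then (0 : ℤ) else 1) +
        (if y ∈ B then 0 else 1)) = (if y ∈ insert a B then 0 else 1) +
          (if y ∈ insert b B then 0 else 1) := by
      intro y
      have k := key y
      have k' : ∀ C : Finset (E →ₐ[ℚ] Qbar), (if y ∈ C then (0 : ℤ) else 1) =
          1 - (if y ∈ C then 1 else 0) := by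
        intro C
        split_ifs <;> simp
      rw [k', k', k', k']
      linarith
    by_cases hγ : γ⁻¹ ∈ ξ₀
    · simp only [if_pos hγ]
      exact key' _
    · simp only [if_neg hγ]
      exact key _
  -- the vertex of an embedding
  set Av : EmbC c → Finset (E →ₐ[ℚ] Qbar) := fun s =>
    Finset.univ.filter fun x => ∃ γ, γ ∈ ξ₀ ∧ x = res E γ ∧ act γ⁻¹ s ∉ T with hAv
  have hAm : ∀ s, ¬ IsBar ψ s s → ∀ δ, δ ∈ ξ₀ → (res E δ ∈ Av s ↔ act δ⁻¹ s ∉ T) := by
    intro s hs δ hδ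
    rw [hAv, Finset.mem_filter]
    constructor
    · rintro ⟨-, γ, -, h2, h3⟩
      exact fun h => h3 ((wd hHS hrefl hs h2).1 h)
    · intro h
      exact ⟨Finset.mem_univ _, δ, hδ, rfl, h⟩
  have hPs : ∀ s, ¬ IsBar ψ s s → s ∈ T → P s = G (Av s) := by
    intro s hs hsT
    have hx : x₁ ∉ Av s := by
      rw [hx₁, hAm s hs 1 hξ1, inv_one, act_one, not_not]
      exact hsT
    have hGe : G (Av s) = P (S (Av s)) := by
      change P (S ((Av s).erase x₁)) = P (S (Av s))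
      rw [Finset.erase_eq_of_notMem hx]
    rw [hGe]
    have h5 : ∀ γ, ind T γ s = ind T γ (S (Av s)) := by
      intro γ
      unfold ind
      refine if_congr ?_ rfl rfl
      rw [hS2, hXm]
      by_cases hγ : γ⁻¹ ∈ ξ₀
      · have h6 := hAm s hs _ hγ
        rw [inv_inv] at h6
        rw [h6]
        tauto
      · have h7 : ρ * γ⁻¹ ∈ ξ₀ := (hξc _).2 hγ
        have h6 := hAm s hs _ h7
        rw [mul_inv_rev, inv_inv, hρi, mem_mul_rho hHS hρ γ hs] at h6
        rw [h6]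
        tauto
    have h6 := h4 s s (S (Av s)) s hs hs (hS1 _) hs hsT hsT (hST _ hx) hsT fun γ => by rw [h5 γ]
    exact mul_right_cancel h6
  -- the sums
  have hS : ∀ γ : GalQ, (∑ s : EmbC c, if act γ s ∈ T then χ s else 0) = 0 := by
    intro γ
    have := hχs γ
    convert this
  set n : EmbC c → ℤ := fun s => if s ∈ T ∧ ¬ IsBar ψ s s then χ s - χ (act ρ s) else 0 with hn
  set k : EmbC c → ℤ := fun s => if s ∈ T ∧ ¬ IsBar ψ s s then χ (act ρ s) else 0 with hk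
  have hρρ : ∀ s : EmbC c, act ρ (act ρ s) = s := by
    intro s
    rw [← act_mul, isConj_mul_self hρ, act_one]
  have hnrρ : ∀ s : EmbC c, IsBar ψ (act ρ s) (act ρ s) ↔ IsBar ψ s s := by
    intro s
    constructor
    · intro h
      by_contra h'
      exact nr_act hHS ρ h' h
    · intro h
      by_contra h'
      have := nr_act hHS ρ h'
      rw [hρρ] at this
      exact this h
  have hreix : ∀ f : EmbC c → ℤ, ∑ s, f (act ρ s) = ∑ s, f s := fun f =>
    Equiv.sum_comp (eqv ρ) f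
  have hksum : ∑ s, k s = 0 := by
    rw [← hreix k, ← hS ρ]
    refine Finset.sum_congr rfl fun s _ => ?_
    change (if act ρ s ∈ T ∧ ¬ IsBar ψ (act ρ s) (act ρ s) then χ (act ρ (act ρ s)) else 0) = _
    rw [hρρ, hnrρ]
    by_cases hs : IsBar ψ s s
    · rw [hχ0 s hs]
      simp
    · simp [hs]
  have hnsum : ∑ s, n s = 0 := by
    have h5 : ∀ s, n s = (if act 1 s ∈ T then χ s else 0) - k s := by
      intro s
      rw [act_one]
      change (if s ∈ T ∧ ¬ IsBar ψ s s then χ s - χ (act ρ s) else 0) =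
        (if s ∈ T then χ s else 0) - (if s ∈ T ∧ ¬ IsBar ψ s s then χ (act ρ s) else 0)
      by_cases hs : IsBar ψ s s
      · rw [hχ0 s hs]
        simp [hs]
      · by_cases hsT : s ∈ T <;> simp [hs, hsT]
    rw [Finset.sum_congr rfl fun s _ => h5 s, Finset.sum_sub_distrib, hksum, hS 1, sub_zero]
  have hxsum : ∀ x, (∑ s, if x ∈ Av s then n s else 0) = 0 := by
    intro x
    by_cases hx : ∃ γ₀, γ₀ ∈ ξ₀ ∧ x = res E γ₀
    swap
    · refine Finset.sum_eq_zero fun s _ => if_neg fun h => hx ?_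
      rw [hAv, Finset.mem_filter] at h
      obtain ⟨-, γ, h1, h2, -⟩ := h
      exact ⟨γ, h1, h2⟩
    obtain ⟨γ₀, hγ₀, rfl⟩ := hx
    set f : EmbC c → ℤ := fun s =>
      if s ∈ T ∧ ¬ IsBar ψ s s ∧ act γ₀⁻¹ s ∉ T then χ (act ρ s) else 0 with hf
    have h5 : ∀ s, (if res E γ₀ ∈ Av s then n s else 0) =
        (if s ∈ T ∧ ¬ IsBar ψ s s ∧ act γ₀⁻¹ s ∉ T then χ s else 0) - f s := by
      intro s
      change (if res E γ₀ ∈ Av s then (if s ∈ T ∧ ¬ IsBar ψ s s then χ s - χ (act ρ s) else 0)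
        else 0) = (if s ∈ T ∧ ¬ IsBar ψ s s ∧ act γ₀⁻¹ s ∉ T then χ s else 0) -
          (if s ∈ T ∧ ¬ IsBar ψ s s ∧ act γ₀⁻¹ s ∉ T then χ (act ρ s) else 0)
      by_cases hs : IsBar ψ s s
      · simp [hs]
      · rw [if_congr (hAm s hs γ₀ hγ₀) rfl rfl]
        by_cases h6 : s ∈ T <;> by_cases h7 : act γ₀⁻¹ s ∈ T <;> simp [hs, h6, h7]
    rw [Finset.sum_congr rfl fun s _ => h5 s, Finset.sum_sub_distrib, ← hreix f,
      ← Finset.sum_sub_distrib]
    have h8 : ∀ s, (if s ∈ T ∧ ¬ IsBar ψ s s ∧ act γ₀⁻¹ s ∉ T then χ s else 0) - f (act ρ s) =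
        (if act 1 s ∈ T then χ s else 0) - (if act γ₀⁻¹ s ∈ T then χ s else 0) := by
      intro s
      rw [act_one]
      change _ - (if act ρ s ∈ T ∧ ¬ IsBar ψ (act ρ s) (act ρ s) ∧ act γ₀⁻¹ (act ρ s) ∉ T then
        χ (act ρ (act ρ s)) else 0) = _
      rw [hρρ, hnrρ]
      by_cases hs : IsBar ψ s s
      · rw [hχ0 s hs]
        simp
      · have h9 : act γ₀⁻¹ (act ρ s) ∈ T ↔ act γ₀⁻¹ s ∉ T := by
          rw [← act_mul]
          exact mem_mul_rho hHS hρ _ hs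
        have h10 := mem_rho hHS hρ hs
        by_cases h6 : s ∈ T <;> by_cases h7 : act γ₀⁻¹ s ∈ T <;> simp [hs, h6, h7, h9, h10]
    rw [Finset.sum_congr rfl fun s _ => h8 s, Finset.sum_sub_distrib, hS 1, hS, sub_zero]
  -- the product
  have hprod : ∏ s : EmbC c, P s ^ χ s = (∏ s, P s ^ n s) * L ^ (∑ s, k s) := by
    have h5 : ∀ s, P s ^ χ s = (if s ∈ T ∧ ¬ IsBar ψ s s then P s ^ χ s else 1) *
        (if s ∉ T ∧ ¬ IsBar ψ s s then P s ^ χ s else 1) := by
      intro s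
      by_cases hs : IsBar ψ s s
      · rw [hχ0 s hs]
        simp
      · by_cases hsT : s ∈ T <;> simp [hs, hsT]
    set f : EmbC c → V := fun s => if s ∉ T ∧ ¬ IsBar ψ s s then P s ^ χ s else 1 with hf
    have h6 : ∏ s, f s = ∏ s, f (act ρ s) := (Equiv.prod_comp (eqv ρ) f).symm
    have h7 : ∀ s, (if s ∈ T ∧ ¬ IsBar ψ s s then P s ^ χ s else 1) * f (act ρ s) =
        P s ^ n s * L ^ k s := by
      intro s
      change _ * (if act ρ s ∉ T ∧ ¬ IsBar ψ (act ρ s) (act ρ s) then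
        P (act ρ s) ^ χ (act ρ s) else 1) = P s ^ (if s ∈ T ∧ ¬ IsBar ψ s s then χ s - χ (act ρ s)
          else 0) * L ^ (if s ∈ T ∧ ¬ IsBar ψ s s then χ (act ρ s) else 0)
      rw [hnrρ]
      by_cases hs : IsBar ψ s s
      · simp [hs]
      · have h10 := mem_rho hHS hρ hs
        by_cases hsT : s ∈ T
        · have h11 := hL s _ (isBar_act hHS hρ s) hs
          have h12 : P (act ρ s) = L / P s := by
            rw [← h11]
            exact (mul_div_cancel_left _ _).symm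
          simp only [h10, hsT, hs, not_true_eq_false, not_false_eq_true, and_self, if_true, h12]
          rw [div_zpow, zpow_sub, div_eq_mul_inv]
          rw [mul_comm (L ^ χ (act ρ s)), ← mul_assoc]
        · simp [h10, hsT]
    rw [Finset.prod_congr rfl fun s _ => h5 s, Finset.prod_mul_distrib, h6,
      ← Finset.prod_mul_distrib, Finset.prod_congr rfl fun s _ => h7 s, Finset.prod_mul_distrib,
      zpow_sum]
  rw [hprod, hksum, zpow_zero, mul_one]
  have hfin : ∀ s, P s ^ n s = G (Av s) ^ n s := by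
    intro s
    by_cases h5 : s ∈ T ∧ ¬ IsBar ψ s s
    · rw [hPs s h5.2 h5.1]
    · have h6 : n s = 0 := if_neg h5
      rw [h6, zpow_zero, zpow_zero]
  rw [Finset.prod_congr rfl fun s _ => hfin s]
  exact cube_rel G hcube Av n hnsum hxsum

end Pool.Agent.Lib.MPf11a48.SH.A
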